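import Pool.Agent.H447R2.MZ.Dich

/-!
# Multiple zeta values: either the sum of the weight spaces is direct, or their dimensions grow

`Z N` is the `ℚ`-span of the multiple zeta values of weight `N`, and `AZ N` is their span over the field
`A` of the real algebraic numbers.

Theorem. Let `p` be a natural number. Then one of the following holds.

(a) The sum `AZ 0 + AZ 1 + ... + AZ p` is direct, so there is no nontrivial relation with algebraic
coefficients between multiple zeta values of different weights up to `p`; in particular the sum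
`Z 0 + ... + Z p` is direct.

(b) For all `n ≥ 2` the dimension of `AZ n` over `A`, and so the dimension of `Z n` over `ℚ`, is at
least `⌊(n - 3 δ) / (2 p)⌋ + 1`, where `δ = 0` for even `n` and `δ = 1` for odd `n`.

So if one relation `z_0 + ... + z_p = 0` with `z_j` in `Z j`, not all zero, exists, then
`dim Z n ≥ (n - 3) / (2 p)` for all `n`; and if `liminf (dim Z n) / n = 0`, then the algebra of the
multiple zeta values is graded by the weight. At least one of the two assertions of the conjecture,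
the directness and the growth of the dimensions, is true in this weak form. Up to now `dim Z n ≥ 2`
is not known for a single `n`.

Proof. If all quotients `z / π ^ j`, `z` in `Z j`, `j ≤ p`, are algebraic, then (a) follows from the
transcendence of `π`. Otherwise `x = (z / π ^ k) ^ 2` is transcendental for some `z` in `Z k`, `k ≤ p`,
and the numbers `x ^ i π ^ n = z ^ (2 i) π ^ (n - 2 k i)`, `2 k i ≤ n`, are in `Z n` for even `n`; for
odd `n` a factor `π ^ 3` is replaced by `ζ(3)`.
-/

set_option autoImplicit false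

namespace Pool.Agent.Results.MP_2000e9_nt.DirectOrGrowing

open Polynomial Pool.Agent.H447R2.MZ

/-- the set of the multiple zeta values
`ζ(n_1, …, n_r) = ∑_{0 < k_1 < ⋯ < k_r} k_1^(-n_1) ⋯ k_r^(-n_r)` (`n_i ≥ 1`, `n_r ≥ 2`) of weight `N`;
for `r = 0` the value is `1` and the weight `0` -/
def mzvs (N : ℕ) : Set ℝ :=
  {x : ℝ | ∃ r : ℕ, ∃ n : Fin r → ℕ,
    (∀ i, 1 ≤ n i) ∧ (∀ h : 0 < r, 2 ≤ n ⟨r - 1, Nat.sub_lt h one_pos⟩) ∧ (∑ i, n i) = N ∧
    x = ∑' k : {k : Fin r → ℕ // StrictMono k ∧ ∀ i, 1 ≤ k i},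
          ∏ i, (((k.1 i : ℕ) : ℝ) ^ (n i))⁻¹}

/-- the `ℚ`-span of the multiple zeta values of weight `N` -/
noncomputable def Z (N : ℕ) : Submodule ℚ ℝ := Submodule.span ℚ (mzvs N)

/-- the field of the real algebraic numbers -/
noncomputable abbrev A : IntermediateField ℚ ℝ := algebraicClosure ℚ ℝ

/-- the span of the multiple zeta values of weight `N` over the field of the real algebraic numbers -/
noncomputable def AZ (N : ℕ) : Submodule A ℝ := Submodule.span A (mzvs N)

/-- the reversal of the order of the arguments -/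
def rv (t : ℕ) : {m : Fin t → ℕ // StrictAnti m ∧ ∀ i, 1 ≤ m i} ≃
    {k : Fin t → ℕ // StrictMono k ∧ ∀ i, 1 ≤ k i} where
  toFun := fun m => ⟨m.1 ∘ Fin.rev, fun i j hij => m.2.1 (Fin.rev_lt_rev.2 hij), fun i => m.2.2 _⟩
  invFun := fun m => ⟨m.1 ∘ Fin.rev, fun i j hij => m.2.1 (Fin.rev_lt_rev.2 hij), fun i => m.2.2 _⟩
  left_inv := fun m => by
    apply Subtype.ext
    funext i
    simp
  right_inv := fun m => by
    apply Subtype.ext
    funext i
    simp

theorem val_rv (t : ℕ) (k : Fin t → ℕ) :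
    ∑' m : {m : Fin t → ℕ // StrictAnti m ∧ ∀ i, 1 ≤ m i}, ∏ i, (((m.1 i : ℕ) : ℝ) ^ (k i))⁻¹ =
      ∑' m : {m : Fin t → ℕ // StrictMono m ∧ ∀ i, 1 ≤ m i},
        ∏ i, (((m.1 i : ℕ) : ℝ) ^ (k (Fin.rev i)))⁻¹ := by
  rw [← (rv t).tsum_eq]
  refine tsum_congr fun m => ?_
  exact Fintype.prod_equiv Fin.revPerm _ _ fun i => by simp [rv]

theorem Z_eq (N : ℕ) : Z N = Zs N := by
  unfold Z Zs mzvs
  congr 1
  ext x
  constructor
  · rintro ⟨t, k, h1, h2, h3, rfl⟩
    refine ⟨t, k ∘ Fin.rev, fun i => h1 _, fun h => ?_, ?_, ?_⟩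
    · have := h2 h
      have e : Fin.rev (⟨0, h⟩ : Fin t) = ⟨t - 1, Nat.sub_lt h one_pos⟩ := by
        ext
        simp only [Fin.val_rev]
        omega
      rw [Function.comp_apply, e]
      exact this
    · rw [← h3]
      exact Fintype.sum_equiv Fin.revPerm _ _ fun i => rfl
    · rw [val_rv]
      simp only [Function.comp_apply, Fin.rev_rev]
  · rintro ⟨t, k, h1, h2, h3, rfl⟩
    refine ⟨t, k ∘ Fin.rev, fun i => h1 _, fun h => ?_, ?_, ?_⟩
    · have := h2 h
      have e : Fin.rev (⟨t - 1, Nat.sub_lt h one_pos⟩ : Fin t) = ⟨0, h⟩ := by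
        ext
        simp only [Fin.val_rev]
        omega
      rw [Function.comp_apply, e]
      exact this
    · rw [← h3]
      exact Fintype.sum_equiv Fin.revPerm _ _ fun i => rfl
    · rw [val_rv]
      rfl

theorem Z_le_AZ (N : ℕ) {x : ℝ} (hx : x ∈ Zs N) : x ∈ AZ N := by
  rw [← Z_eq] at hx
  exact Submodule.span_subset_span ℚ A (mzvs N) hx

/-- if the elements of `Z j` are algebraic multiples of `π ^ j`, then so are those of `AZ j` -/
theorem alg_AZ {j : ℕ} (h : ∀ z ∈ Zs j, IsAlgebraic ℚ (z / Real.pi ^ j)) {z : ℝ} (hz : z ∈ AZ j) :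
    IsAlgebraic ℚ (z / Real.pi ^ j) := by
  unfold AZ at hz
  induction hz using Submodule.span_induction with
  | mem x hx =>
    apply h
    rw [← Z_eq]
    exact Submodule.subset_span hx
  | zero => rw [zero_div]; exact isAlgebraic_zero
  | add x y _ _ hx hy => rw [add_div]; exact hx.add hy
  | smul a x _ hx =>
    have e : a • x / Real.pi ^ j = (a : ℝ) * (x / Real.pi ^ j) := by
      rw [mul_div_assoc']
      rfl
    rw [e]
    exact ((mem_algebraicClosure_iff).1 a.2).mul hx

theorem pow_linIndA (x : ℝ) (hx : Transcendental ℚ x) :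
    LinearIndependent A (fun i : ℕ => x ^ i) := by
  have hinj := transcendental_iff_injective.1 (hx.algebraicClosure : Transcendental A x)
  have h1 := (Polynomial.basisMonomials A).linearIndependent.map' (Polynomial.aeval x).toLinearMap
    (LinearMap.ker_eq_bot.2 hinj)
  have e : (fun i : ℕ => x ^ i) =
      ⇑(Polynomial.aeval x).toLinearMap ∘ ⇑(Polynomial.basisMonomials A) := by
    funext i
    simp [Polynomial.aeval_monomial]
  rw [e]
  exact h1

theorem rank_both {n M : ℕ} (v : Fin M → ℝ) (hv : LinearIndependent A v) (hm : ∀ i, v i ∈ Zs n) :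
    (M : Cardinal) ≤ Module.rank A (AZ n) ∧ (M : Cardinal) ≤ Module.rank ℚ (Z n) := by
  constructor
  · let w : Fin M → AZ n := fun i => ⟨v i, Z_le_AZ n (hm i)⟩
    have hw : LinearIndependent A w := LinearIndependent.of_comp (AZ n).subtype hv
    have := hw.cardinal_le_rank
    simpa using this
  · let w : Fin M → Z n := fun i => ⟨v i, by rw [Z_eq]; exact hm i⟩
    have hv' : LinearIndependent ℚ v := hv.restrict_scalars (by
      intro a b hab
      have h1 : ((a • (1 : A) : A) : ℝ) = ((b • (1 : A) : A) : ℝ) := congrArg Subtype.val hab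
      have h2 : (a : ℝ) = b := by simpa [Algebra.smul_def] using h1
      exact_mod_cast h2)
    have hw : LinearIndependent ℚ w := LinearIndependent.of_comp (Z n).subtype hv'
    have := hw.cardinal_le_rank
    simpa using this

theorem pow_rank_both {n M : ℕ} (c x : ℝ) (hc : c ≠ 0) (hx : Transcendental ℚ x)
    (hm : ∀ i < M, c * x ^ i ∈ Zs n) :
    (M : Cardinal) ≤ Module.rank A (AZ n) ∧ (M : Cardinal) ≤ Module.rank ℚ (Z n) := by
  apply rank_both (fun i : Fin M => c * x ^ (i : ℕ)) _ (fun i => hm i i.2)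
  have h1 : LinearIndependent A (fun i : Fin M => x ^ (i : ℕ)) :=
    (pow_linIndA x hx).comp _ Fin.val_injective
  have h2 := h1.map' (LinearMap.mulLeft A c) (LinearMap.ker_eq_bot.2 (mul_right_injective₀ hc))
  exact h2

/-- growth, if some element `z` of weight `k` has `z / π ^ k` transcendental -/
theorem growthA (k : ℕ) (z : ℝ) (hz : z ∈ Zs k) (ht : Transcendental ℚ (z / Real.pi ^ k))
    (n : ℕ) (hn : 2 ≤ n) :
    (((n - 3 * (n % 2)) / (2 * k) + 1 : ℕ) : Cardinal) ≤ Module.rank A (AZ n) ∧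
      (((n - 3 * (n % 2)) / (2 * k) + 1 : ℕ) : Cardinal) ≤ Module.rank ℚ (Z n) := by
  have hx : Transcendental ℚ ((z / Real.pi ^ k) ^ 2) := ht.pow (by norm_num)
  have hpi : Real.pi ≠ 0 := Real.pi_ne_zero
  have hz2 : z ^ 2 ∈ Zs (2 * k) := by
    have := pow_mem k z hz 2
    rwa [mul_comm k 2] at this
  rcases Nat.even_or_odd' n with ⟨m, rfl | rfl⟩
  · have hmod : 2 * m % 2 = 0 := by omega
    rw [hmod]
    simp only [mul_zero, Nat.sub_zero]
    apply pow_rank_both (Real.pi ^ (2 * m)) _ (pow_ne_zero _ hpi) hx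
    intro i hi
    have hi2 : 2 * k * i ≤ 2 * m := by
      have h1 : i ≤ 2 * m / (2 * k) := by omega
      calc 2 * k * i ≤ 2 * k * (2 * m / (2 * k)) := Nat.mul_le_mul_left _ h1
        _ ≤ 2 * m := Nat.mul_div_le _ _
    have hki : k * i ≤ m := by nlinarith
    have h1 := mul_mem _ _ _ _ (pow_mem (2 * k) _ hz2 i) (pi_pow_mem (m - k * i))
    have e1 : 2 * k * i + 2 * (m - k * i) = 2 * m := by
      rw [Nat.mul_assoc, ← Nat.mul_add]
      congr 1
      omega
    rw [e1] at h1
    have e2 : Real.pi ^ (2 * m) = Real.pi ^ (2 * (k * i)) * Real.pi ^ (2 * (m - k * i)) := by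
      rw [← pow_add]; congr 1; rw [← e1]; ring
    have e3 : Real.pi ^ (2 * m) * ((z / Real.pi ^ k) ^ 2) ^ i =
        (z ^ 2) ^ i * Real.pi ^ (2 * (m - k * i)) := by
      rw [e2, div_pow, div_pow]
      have : ((Real.pi ^ k) ^ 2) ^ i = Real.pi ^ (2 * (k * i)) := by
        rw [← pow_mul, ← pow_mul]; congr 1; ring
      rw [this]
      field_simp
    rw [e3]
    exact h1
  · have hmod : (2 * m + 1) % 2 = 1 := by omega
    rw [hmod]
    simp only [mul_one]
    have hm1 : 1 ≤ m := by omega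
    have e0 : 2 * m + 1 - 3 = 2 * (m - 1) := by omega
    rw [e0]
    apply pow_rank_both (z3 * Real.pi ^ (2 * (m - 1))) _
      (mul_ne_zero z3_pos.ne' (pow_ne_zero _ hpi)) hx
    intro i hi
    have hi2 : 2 * k * i ≤ 2 * (m - 1) := by
      have h1 : i ≤ 2 * (m - 1) / (2 * k) := by omega
      calc 2 * k * i ≤ 2 * k * (2 * (m - 1) / (2 * k)) := Nat.mul_le_mul_left _ h1
        _ ≤ _ := Nat.mul_div_le _ _
    have hki : k * i ≤ m - 1 := by nlinarith
    have h1 := mul_mem _ _ _ _ z3_mem
      (mul_mem _ _ _ _ (pow_mem (2 * k) _ hz2 i) (pi_pow_mem (m - 1 - k * i)))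
    have e1 : 3 + (2 * k * i + 2 * (m - 1 - k * i)) = 2 * m + 1 := by
      rw [Nat.mul_assoc, ← Nat.mul_add]
      omega
    rw [e1] at h1
    have e2 : Real.pi ^ (2 * (m - 1)) =
        Real.pi ^ (2 * (k * i)) * Real.pi ^ (2 * (m - 1 - k * i)) := by
      rw [← pow_add]; congr 1; omega
    have e3 : z3 * Real.pi ^ (2 * (m - 1)) * ((z / Real.pi ^ k) ^ 2) ^ i =
        z3 * ((z ^ 2) ^ i * Real.pi ^ (2 * (m - 1 - k * i))) := by
      rw [e2, div_pow, div_pow]
      have : ((Real.pi ^ k) ^ 2) ^ i = Real.pi ^ (2 * (k * i)) := by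
        rw [← pow_mul, ← pow_mul]; congr 1; ring
      rw [this]
      field_simp
    rw [e3]
    exact h1

/-- For every `p` either there is no nontrivial relation with real algebraic coefficients between
multiple zeta values of different weights `j ≤ p`, or for all `n ≥ 2` the dimensions of the span of
the multiple zeta values of weight `n` over the real algebraic numbers and over `ℚ` are at least
`⌊(n - 3 δ) / (2 p)⌋ + 1`, where `δ` is the parity of `n`. -/
theorem result (p : ℕ) :
    (∀ z : ℕ → ℝ, (∀ j ≤ p, z j ∈ AZ j) → (∑ j ∈ Finset.range (p + 1), z j) = 0 →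
      ∀ j ≤ p, z j = 0) ∨
    ∀ n : ℕ, 2 ≤ n →
      (((n - 3 * (n % 2)) / (2 * p) + 1 : ℕ) : Cardinal) ≤ Module.rank A (AZ n) ∧
      (((n - 3 * (n % 2)) / (2 * p) + 1 : ℕ) : Cardinal) ≤ Module.rank ℚ (Z n) := by
  by_cases h : ∀ j ≤ p, ∀ z ∈ Zs j, IsAlgebraic ℚ (z / Real.pi ^ j)
  · left
    intro z hz hs j hj
    have h1 := pi_indep p (fun j => z j / Real.pi ^ j) (fun j hj => alg_AZ (h j hj) (hz j hj)) (by
      rw [← hs]
      apply Finset.sum_congr rfl
      intro j _
      have : Real.pi ^ j ≠ 0 := pow_ne_zero _ Real.pi_ne_zero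
      field_simp) j hj
    have : Real.pi ^ j ≠ 0 := pow_ne_zero _ Real.pi_ne_zero
    simpa [this] using h1
  · right
    push Not at h
    obtain ⟨k, hk, z, hz, ht⟩ := h
    have hk0 : k ≠ 0 := by
      rintro rfl
      obtain ⟨q, rfl⟩ := Zs_zero hz
      apply ht
      simpa using (isAlgebraic_ratCast ℚ q : IsAlgebraic ℚ ((q : ℝ)))
    intro n hn
    have hle : (n - 3 * (n % 2)) / (2 * p) + 1 ≤ (n - 3 * (n % 2)) / (2 * k) + 1 := by
      have : (n - 3 * (n % 2)) / (2 * p) ≤ (n - 3 * (n % 2)) / (2 * k) :=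
        Nat.div_le_div_left (by omega) (by omega)
      omega
    obtain ⟨h1, h2⟩ := growthA k z hz ht n hn
    have h3 : (((n - 3 * (n % 2)) / (2 * p) + 1 : ℕ) : Cardinal) ≤
        (((n - 3 * (n % 2)) / (2 * k) + 1 : ℕ) : Cardinal) := by exact_mod_cast hle
    exact ⟨h3.trans h1, h3.trans h2⟩

end Pool.Agent.Results.MP_2000e9_nt.DirectOrGrowing
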